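import Mathlib
import Pool.Agent.Helper73.TH.Defs
import Pool.Agent.Helper73.TH.UDefs

set_option autoImplicit false

/-!
Project TH (MP_594f4b_nt, Q2): statements of the pieces.
-/

namespace Pool.Agent.Helper73.TH.Spec

open Pool.Agent.Helper73.TH

/-! ### TH-1: Minkowski's theorem on linear forms -/

theorem minkowski_linear {n : ℕ} (A : Matrix (Fin n) (Fin n) ℝ) (hA : A.det ≠ 0)
    (c : Fin n → ℝ) (hc : ∀ i, 0 < c i) (h : |A.det| < ∏ i, c i) :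
    ∃ x : Fin n → ℤ, x ≠ 0 ∧ ∀ i, |∑ j, A i j * (x j : ℝ)| < c i := by sorry

/-! ### TH-2: algebra of the curve -/

/-- lower bound for `ρ` -/
theorem curve_rho {ρ s β : ℝ} (h : Curve ρ s β) (hρ : 1 < ρ) :
    s * (s ^ 2 - 1) < ρ * ((s - 1) * β + 1 + s) := by sorry

/-- one plane: upper bound for `A`, lower bound for `x1` -/
theorem lemmaA {ρ s β : ℝ} (h : Curve ρ s β) (hρ : 1 < ρ) (x A d e x1 A1 : ℝ)
    (hx : 0 < x) (hA : 0 ≤ A) (hA1 : 0 ≤ A1) (hAx : ρ * A ≤ x) (hxx : x < x1)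
    (h1 : x1 < (s - 1) * e)
    (h2 : e < s * d - (1 + s) * x)
    (h3 : (ρ - 1) * (e + x1) < (s * ρ + 1) * x - (1 + s) * ρ * A)
    (h4 : d ≤ A + x1 ∨ (d ≤ A1 + x ∧ ρ * A1 ≤ x1)) :
    A < (1 - β) * x ∧ (1 + s) * x < β * x1 := by sorry

/-- two consecutive planes: lower bound for `Am` -/
theorem lemmaB {ρ s β : ℝ} (h : Curve ρ s β) (hρ : 1 < ρ) (x A d e x1 A1 μ Am An xn e' : ℝ)
    (hx : 0 < x) (hA : 0 ≤ A) (hAβ : A < (1 - β) * x) (hxx : (1 + s) * x < β * x1) (hμ : x1 ≤ μ)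
    (h1 : μ < (s - 1) * e)
    (h2 : e < s * d - (1 + s) * x)
    (h4 : d ≤ A + x1 ∨ (d ≤ A1 + x ∧ ρ * A1 ≤ x1))
    (hn : An ≤ μ) (hxn : (1 + s) * μ < β * xn) (h1' : xn < (s - 1) * e')
    (h5 : e < (s - 1) * d ∨ μ + e - s * d < Am ∨ e' + xn < An + s * d) :
    (1 - β) * μ < Am := by sorry

/-! ### TH-3: existence of the point on the curve and comparison with Thurnheer's cubic -/

theorem exists_curve (ρ : ℝ) (h1 : 1 < ρ) (h2 : ρ ≤ 7 / 4) : ∃ s β : ℝ, Curve ρ s β := by sorry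

theorem curve_golden {ρ s β : ℝ} (h : Curve ρ s β) : 0 < s ^ 2 - s - 1 := by sorry

theorem curve_rho_one {ρ s β : ℝ} (h : Curve ρ s β) : 1 < ρ := by sorry

theorem curve_beta_lt {ρ s β : ℝ} (h : Curve ρ s β) (h2 : ρ < 7 / 4) : β < 1 := by sorry

theorem curve_end {s β : ℝ} (h : Curve (7 / 4) s β) : s = 2 ∧ β = 1 := by sorry

/-- every real root of Thurnheer's cubic is smaller than the point of the curve -/
theorem curve_gt_cubic {ρ s β : ℝ} (h : Curve ρ s β) (h2 : ρ < 7 / 4) (x : ℝ)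
    (hx : ρ * x ^ 3 - 2 * (ρ - 1) * x ^ 2 - 2 * ρ * x - 1 = 0) : x < s := by sorry

/-! ### TH-4: badly approximable linear forms -/

theorem exists_bad : ∃ θ₁ θ₂ : ℝ, LinearIndependent ℤ ![(1 : ℝ), θ₁, θ₂] ∧
    ∃ c : ℝ, 0 < c ∧ ∀ x1 x2 : ℤ, (x1 ≠ 0 ∨ x2 ≠ 0) →
      c ≤ (max |(x1 : ℝ)| |(x2 : ℝ)|) ^ 2 * distInt (θ₁ * x1 + θ₂ * x2) := by sorry

theorem not_admits_of_two_lt (ρ s : ℝ) (hs : 2 < s) : ¬ Admits ρ 0 s := by sorry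

/-! ### TH-5: parameters from the curve -/

theorem exists_par {ρ σ β s : ℝ} (h : Curve ρ σ β) (hρ : 1 < ρ) (hβ : β < 1) (hs : σ < s)
    (hs2 : s < 2) : ∃ P : Par, Ineq P ρ s := by sorry

/-! ### TH-6: coprime shift and Fibonacci numbers -/

theorem exists_shift (A B N : ℤ) (hN : 0 < N)
    (h : ∀ p : ℤ, Prime p → p ∣ A → p ∣ B → p ∣ N → False) :
    ∃ k : ℤ, 0 ≤ k ∧ k ≤ N ∧ IsCoprime (A + k * B) N := by sorry

/-! ### TH-7: one step of the construction -/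

theorem step (P : Par) : ∃ t0 : ℝ, ∀ t : ℝ, t0 ≤ t → ∀ S : St, Inv P t S →
    ∃ S' : St, ∃ k : ℕ, ∃ v0 v1 v2 : ℤ, Inv P (P.γ * t) S' ∧ Rel P t S S' k v0 v1 v2 := by sorry

/-! ### TH-8: the data -/

theorem exists_data (P : Par) : Nonempty (Data P) := by sorry

/-! ### TH-9: linear independence -/

theorem linIndep {P : Par} (d : Data P) : LinearIndependent ℤ ![(1 : ℝ), d.θ1, d.θ2] := by sorry

/-! ### TH-10: real estimates, case 1 -/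

theorem case1 (P : Par) (ρ s : ℝ) (h : Ineq P ρ s) :
    ∃ δ : ℝ, 0 < δ ∧ ∃ t0 : ℝ, ∀ t : ℝ, t0 ≤ t → ∀ (D0 D1 n X L : ℝ) (j j' : ℤ),
      0 < D0 → D0 ≤ 16 * Real.exp ((1 + P.α / P.γ) * t) →
      0 < D1 → D1 ≤ 16 * Real.exp ((P.γ + P.α) * t) →
      Real.exp ((P.γ + P.α - P.κ) * t) ≤ n →
      Real.exp ((P.κ - 1) * t) ≤ 640 * X →
      |(j : ℝ) - D0 * L| ≤ 320 * X * Real.exp (-((P.κ - 1) * t)) →
      |(j' : ℝ) - D1 * L| ≤ 1 / 2 → j' ≠ 0 →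
      (n ≤ |(j' : ℝ)| ∨ n ≤ 6 * (|(j' : ℝ)| * |(j : ℝ)|)) →
      Real.exp (δ * t) ≤ X ^ s * |L| := by sorry

/-! ### TH-11: real estimates, multiples of one vector -/

theorem case2b (P : Par) (ρ s : ℝ) (h : Ineq P ρ s) :
    ∃ δ : ℝ, 0 < δ ∧ ∃ t0 : ℝ, ∀ t : ℝ, t0 ≤ t → ∀ (a : ℤ) (w1 w2 L X : ℝ), a ≠ 0 →
      Real.exp (P.α * t) ≤ w1 → w1 ≤ 2 * Real.exp (P.α * t) → Real.exp t ≤ 2 * w2 →
      |(a : ℝ)| ≤ 32 * Real.exp (P.κ * (P.γ * t)) * |L| →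
      |(a : ℝ) * w2| ≤ X → Dom ρ (a * w1) (a * w2) →
      Real.exp (δ * t) ≤ X ^ s * |L| := by sorry

/-! ### TH-12: real estimates, combinations of two vectors -/

theorem case2a (P : Par) (ρ s : ℝ) (h : Ineq P ρ s) :
    ∃ δ : ℝ, 0 < δ ∧ ∃ t0 : ℝ, ∀ t : ℝ, t0 ≤ t → ∀ (a b : ℤ) (u1 u2 w1 w2 L X : ℝ),
      a ≠ 0 → b ≠ 0 →
      Real.exp (P.α * t) ≤ u1 → u1 ≤ 2 * Real.exp (P.α * t) →
      Real.exp t ≤ 2 * u2 → u2 ≤ 20 * Real.exp t →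
      Real.exp (P.α * (P.γ * t)) ≤ w1 → w1 ≤ 2 * Real.exp (P.α * (P.γ * t)) →
      Real.exp (P.γ * t) ≤ 2 * w2 → w2 ≤ 20 * Real.exp (P.γ * t) →
      |(a : ℝ)| ≤ 32 * Real.exp (P.κ * (P.γ * t)) * |L| →
      |(a : ℝ) * u1 + b * w1| ≤ X → |(a : ℝ) * u2 + b * w2| ≤ X →
      (2 * |(a : ℝ) * u1 + b * w1| ≤ 1 →
        Real.exp (P.α * (P.γ * t)) ≤ |(a : ℝ)| ∧ Real.exp (P.α * t) ≤ |(b : ℝ)|) →
      Dom ρ (a * u1 + b * w1) (a * u2 + b * w2) →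
      Real.exp (δ * t) ≤ X ^ s * |L| := by sorry

/-! ### TH-13: the key estimate -/

theorem key {P : Par} (d : Data P) (ρ s : ℝ) (h : Ineq P ρ s) :
    ∃ δ : ℝ, 0 < δ ∧ ∃ i0 : ℕ, ∀ i : ℕ, i0 ≤ i → ∀ y0 y1 y2 : ℤ, Dom ρ y1 y2 →
      Real.exp ((P.κ - 1) * (P.γ ^ i * d.t)) ≤ 640 * nrm y1 y2 →
      640 * nrm y1 y2 < Real.exp ((P.κ - 1) * (P.γ ^ (i + 1) * d.t)) →
      Real.exp (δ * (P.γ ^ i * d.t)) ≤ nrm y1 y2 ^ s * |d.L y0 y1 y2| := by sorry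

/-! ### TH-14: the upper bound -/

theorem not_admits_of_par (P : Par) (ρ s : ℝ) (h : Ineq P ρ s) : ¬ Admits ρ 0 s := by sorry

end Pool.Agent.Helper73.TH.Spec
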